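import Pool.Agent.Y462.EI.Stm2

/-!
# EI-MXO (project EI of helper462): multiple HNN extensions, one more stable letter
-/

set_option autoImplicit false

namespace Pool.Agent.Y417.EI

open Pool.Agent.Y462.EI

theorem t_mxo : S_MXO := by
  intro M P E _ _ H _ α β f x hx hinj
  obtain ⟨α', hα'⟩ : ∃ α' : ∀ e, H (some e) →* M, α' = fun e => α (some e) := ⟨_, rfl⟩
  obtain ⟨β', hβ'⟩ : ∃ β' : ∀ e, H (some e) →* M, β' = fun e => β (some e) := ⟨_, rfl⟩
  rw [← hα', ← hβ']
  have hα : ∀ e, α' e = α (some e) := fun e => by rw [hα']
  have hβ : ∀ e, β' e = β (some e) := fun e => by rw [hβ']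
  let o : M →* MX α' β' := MX.of α' β'
  let f' : MX α' β' →* P := MX.lift α' β' f (fun e => x (some e))
    (fun e h => by rw [hα, hβ]; exact hx (some e) h)
  have hf' : ∀ m, f' (o m) = f m := fun m => MX.lift_of α' β' f _ _ m
  let a0 : H none →* MX α' β' := o.comp (α none)
  let b0 : H none →* MX α' β' := o.comp (β none)
  have hfa : ∀ h, f' (a0 h) = f (α none h) := fun h => hf' _
  have hfb : ∀ h, f' (b0 h) = f (β none h) := fun h => hf' _
  have ha : Function.Injective a0 := by
    refine (injective_iff_map_eq_one a0).2 fun h hh => hinj h ?_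
    rw [← hfa, hh, map_one]
  have hb : Function.Injective b0 := by
    refine (injective_iff_map_eq_one b0).2 fun h hh => hinj h ?_
    have h1 : f (β none h) = 1 := by rw [← hfb, hh, map_one]
    have h2 := hx none h
    rw [h1, one_mul] at h2
    exact mul_eq_left.1 h2
  let φ : a0.range ≃* b0.range :=
    (MonoidHom.ofInjective ha).symm.trans (MonoidHom.ofInjective hb)
  have hφ : ∀ h, ((φ (MonoidHom.ofInjective ha h) : b0.range) : MX α' β') = b0 h := by
    intro h
    change ((MonoidHom.ofInjective hb ((MonoidHom.ofInjective ha).symm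
      (MonoidHom.ofInjective ha h)) : b0.range) : MX α' β') = b0 h
    rw [MulEquiv.symm_apply_apply]
    rfl
  have hsurj : ∀ a : a0.range, ∃ h, a = MonoidHom.ofInjective ha h := fun a =>
    ⟨(MonoidHom.ofInjective ha).symm a, ((MonoidHom.ofInjective ha).apply_symm_apply a).symm⟩
  have hcoe : ∀ h, ((MonoidHom.ofInjective ha h : a0.range) : MX α' β') = a0 h := fun h => rfl
  -- the two maps
  let y : Option E → HNNExtension (MX α' β') a0.range b0.range φ := fun e =>
    match e with
    | none => HNNExtension.t
    | some e => HNNExtension.of (MX.st α' β' e)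
  have hy : ∀ e h, y e * (HNNExtension.of.comp o : M →* _) (α e h) =
      (HNNExtension.of.comp o : M →* _) (β e h) * y e := by
    intro e h
    rcases e with _ | e
    · have h1 := HNNExtension.t_mul_of (φ := φ) (MonoidHom.ofInjective ha h)
      rw [hφ, hcoe] at h1
      exact h1
    · have h1 := MX.rel α' β' e h
      have h2 := congrArg (HNNExtension.of (A := a0.range) (B := b0.range) (φ := φ)) h1
      rw [map_mul, map_mul, hα, hβ] at h2
      exact h2
  let j : MX α β →* HNNExtension (MX α' β') a0.range b0.range φ :=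
    MX.lift α β (HNNExtension.of.comp o) y hy
  have hj1 : ∀ m, j (MX.of α β m) = HNNExtension.of (o m) := fun m => MX.lift_of α β _ _ _ m
  have hj2 : ∀ e, j (MX.st α β e) = y e := fun e => MX.lift_st α β _ _ _ e
  let k : MX α' β' →* MX α β := MX.lift α' β' (MX.of α β) (fun e => MX.st α β (some e))
    (fun e h => by rw [hα, hβ]; exact MX.rel α β (some e) h)
  have hk1 : ∀ m, k (o m) = MX.of α β m := fun m => MX.lift_of α' β' _ _ _ m
  have hk2 : ∀ e, k (MX.st α' β' e) = MX.st α β (some e) := fun e => MX.lift_st α' β' _ _ _ e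
  have hl : ∀ a : a0.range, MX.st α β none * k (a : MX α' β') =
      k ((φ a : b0.range) : MX α' β') * MX.st α β none := by
    intro a
    obtain ⟨h, rfl⟩ := hsurj a
    rw [hφ, hcoe]
    have h1 : k (a0 h) = MX.of α β (α none h) := hk1 _
    have h2 : k (b0 h) = MX.of α β (β none h) := hk1 _
    rw [h1, h2]
    exact MX.rel α β none h
  let l : HNNExtension (MX α' β') a0.range b0.range φ →* MX α β :=
    HNNExtension.lift k (MX.st α β none) hl
  have hlj : ∀ z, l (j z) = z := by
    have h1 : l.comp j = MonoidHom.id _ := by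
      apply MX.hom_ext
      · intro m
        rw [MonoidHom.comp_apply, hj1, MonoidHom.id_apply]
        change HNNExtension.lift k (MX.st α β none) hl (HNNExtension.of (o m)) = _
        rw [HNNExtension.lift_of, hk1]
      · intro e
        rw [MonoidHom.comp_apply, hj2, MonoidHom.id_apply]
        rcases e with _ | e
        · change HNNExtension.lift k (MX.st α β none) hl HNNExtension.t = _
          rw [HNNExtension.lift_t]
        · change HNNExtension.lift k (MX.st α β none) hl (HNNExtension.of (MX.st α' β' e)) = _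
          rw [HNNExtension.lift_of, hk2]
    intro z
    have h2 := DFunLike.congr_fun h1 z
    rwa [MonoidHom.comp_apply, MonoidHom.id_apply] at h2
  have hF : ∀ a : a0.range, x none * f' (a : MX α' β') =
      f' ((φ a : b0.range) : MX α' β') * x none := by
    intro a
    obtain ⟨h, rfl⟩ := hsurj a
    rw [hφ, hcoe, hfa, hfb]
    exact hx none h
  refine ⟨a0.range, b0.range, φ, j, HNNExtension.lift f' (x none) hF, ?_, ?_, ?_⟩
  · exact Function.LeftInverse.injective hlj
  · intro m
    rw [HNNExtension.lift_of]
    exact hf' m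
  · rintro _ ⟨h, rfl⟩ h1
    rw [HNNExtension.lift_of, hfa] at h1
    rw [hinj h h1, map_one]

end Pool.Agent.Y417.EI
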